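import Pool.Agent.N659.HB.Stm10
import Pool.Agent.N664.SD.PT

/-!
Project SN, part PTU: perturbation of the averaged resolvent by a symbol small compared with the
absorption, general law. Adapted from Pool/Agent/N664/SD/PT.lean.
-/

set_option autoImplicit false

namespace Pool.Agent.N3.SN.PTU

open MeasureTheory Filter Pool.Agent.W792.LL Pool.Agent.W792.WA Pool.Agent.N659.HB
open Pool.Agent.N664.SD.PT
open scoped Topology ENNReal

noncomputable section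

theorem main : S_GR → S_DIA → S_OPR → S_SYMB → S_OWU → S_ODU → S_PTU := by
  intro hgr hdia hopr hsymb how hod d A C c
  obtain ⟨C₁, g₁, hC₁, hg₁, how'⟩ := how d A C c
  obtain ⟨C₂, g₂, hC₂, hg₂, hod'⟩ := hod d A C c
  refine ⟨C₂ + 3 * C₁, min (min g₁ g₂) 1, by linarith, by positivity, ?_⟩
  intro μ _ w y₀ hUL γ hγ hγ0 ζ hre him0 him2 Y N N' hY hN hN' k
  have him : 0 < ζ.im := hUL.hy.trans_le him0
  have hw1 : 1 ≤ w := by
    have h1 := hUL.hA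
    have h2 := hUL.hw
    linarith
  have hw : 0 < w := by linarith
  have hγ1 : γ ≤ g₁ := hγ0.trans ((min_le_left _ _).trans (min_le_left _ _))
  have hγ2 : γ ≤ g₂ := hγ0.trans ((min_le_left _ _).trans (min_le_right _ _))
  have hγ3 : γ ≤ 1 := hγ0.trans (min_le_right _ _)
  have ow := how' μ w y₀ hUL γ hγ hγ1 ζ hre him0 him2
  have od := hod' μ w y₀ hUL γ hγ hγ2 ζ hre him0 him2 Y
  set y := ζ.im with hy
  have hX : ∀ k, ((xs d γ ζ) k).im ≤ -y := fun k => by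
    show (((γ * lap d k : ℝ) : ℂ) - ζ).im ≤ -y
    rw [Complex.sub_im, Complex.ofReal_im, hy]
    linarith
  have hXY : ∀ k, ((xs d γ ζ + Y) k).im ≤ -(y / 2) := fun k => by
    rw [ContinuousMap.add_apply, Complex.add_im]
    have h1 := hX k
    have h2 : (Y k).im ≤ y / 2 :=
      (Complex.im_le_norm _).trans ((Y.norm_coe_le_norm k).trans hY)
    linarith
  have hy2 : 0 < y / 2 := by positivity
  obtain ⟨G1, G2⟩ := hgr d w y (xs d γ ζ) hw.le him hX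
  obtain ⟨K1, K2⟩ := hgr d w (y / 2) (xs d γ ζ + Y) hw.le hy2 hXY
  have wG : WB fun v => gr w (xs d γ ζ) v := wb_gr hgr d w y _ hw.le him hX
  have wK : WB fun v => gr w (xs d γ ζ + Y) v := wb_gr hgr d w (y / 2) _ hw.le hy2 hXY
  have hge : ∀ (v : (Fin d → ℤ) → ℝ) (x : Fin d → ℤ), ‖ge w γ ζ v x x‖ ≤ 1 / y := fun v x => by
    unfold ge
    have e : ‖dl x‖ = 1 := by
      unfold dl
      rw [lp.norm_single (by norm_num)]
      simp
    calc ‖gr w (xs d γ ζ) v (dl x) x‖ ≤ ‖gr w (xs d γ ζ) v (dl x)‖ :=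
          lp.norm_apply_le_norm (by norm_num) _ _
      _ ≤ ‖gr w (xs d γ ζ) v‖ * ‖dl x‖ := ContinuousLinearMap.le_opNorm _ _
      _ ≤ 1 / y := by rw [e, mul_one]; exact (G1 v).2.2
  have hD : ∀ v : (Fin d → ℤ) → ℝ, (∀ (u : l2 (Fin d → ℤ)) (x : Fin d → ℤ),
      dg w γ ζ v u x = ge w γ ζ v x x * u x) ∧ ‖dg (d := d) w γ ζ v‖ ≤ 1 / y := fun v =>
    dia_bd hdia _ (1 / y) (by positivity) (hge v)
  have wD : WB fun v => dg (d := d) w γ ζ v := by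
    refine ⟨⟨1 / y, fun v => (hD v).2⟩, fun u x => ?_⟩
    simp only [(hD _).1]
    exact (G2 (dl x) x).mul_const _
  have wR : WB fun v => gr w (xs d γ ζ) v - dg (d := d) w γ ζ v := wG.sub wD
  have hadd : ∀ a b : C(UnitAddTorus (Fin d), ℂ), opr (a + b) = opr a + opr b := fun a b =>
    (hopr d a b).2.2.2.1
  have hres : ∀ v : (Fin d → ℤ) → ℝ, gr w (xs d γ ζ + Y) v - gr w (xs d γ ζ) v
      = -(dg w γ ζ v * opr Y * dg w γ ζ v)
        - gr w (xs d γ ζ) v * opr Y * (gr w (xs d γ ζ) v - dg w γ ζ v)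
        - (gr w (xs d γ ζ) v - dg w γ ζ v) * opr Y * gr w (xs d γ ζ) v
        + (gr w (xs d γ ζ) v - dg w γ ζ v) * opr Y * (gr w (xs d γ ζ) v - dg w γ ζ v)
        + gr w (xs d γ ζ) v * (opr Y * gr w (xs d γ ζ + Y) v * opr Y) * gr w (xs d γ ζ) v := by
    intro v
    apply split
    refine resolvent (vcl w v + opr (xs d γ ζ)) _ _ _ (G1 v).1 (G1 v).2.1 ?_ ?_
    · rw [add_assoc, ← hadd]; exact (K1 v).1
    · rw [add_assoc, ← hadd]; exact (K1 v).2.1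
  -- numbers
  set s := Real.sqrt (C₁ / y) with hs
  set q := γ ^ (1 / 4 : ℝ) with hq
  have hs0 : 0 ≤ s := Real.sqrt_nonneg _
  have hq0 : 0 ≤ q := Real.rpow_nonneg hγ.le _
  have hs2 : s ^ 2 = C₁ / y := Real.sq_sqrt (by positivity)
  have hq2 : q ^ 2 = γ ^ (1 / 2 : ℝ) := by
    rw [hq, ← Real.rpow_natCast, ← Real.rpow_mul hγ.le]
    norm_num
  have hq1 : q ≤ 1 := Real.rpow_le_one hγ.le hγ3 (by norm_num)
  have hqq : γ ^ (1 / 2 : ℝ) ≤ q := by rw [← hq2]; nlinarith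
  have hYn : ‖opr Y‖ ≤ ‖Y‖ := (hopr d Y Y).2.1
  set Bd : ℝ := (C₂ + 3 * C₁) * (q / y + w * y ^ (-(15 / 16) : ℝ)) * ‖Y‖
    + (C₂ + 3 * C₁) * (‖Y‖ / y) ^ 2 with hBd
  have hyr : 0 ≤ w * y ^ (-(15 / 16) : ℝ) := mul_nonneg hw.le (Real.rpow_nonneg him.le _)
  have hBd0 : 0 ≤ Bd := by positivity
  -- form bound
  have form : ∀ u' u : l2 (Fin d → ℤ),
      ‖∫ v, inner ℂ u' ((gr w (xs d γ ζ + Y) v - gr w (xs d γ ζ) v) u)
        ∂(Pn μ (Fin d → ℤ))‖ ≤ Bd * (‖u'‖ * ‖u‖) := by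
    intro u' u
    have aG : ∫ v, ‖ContinuousLinearMap.adjoint (gr w (xs d γ ζ) v) u'‖ ^ 2
        ∂(Pn μ (Fin d → ℤ)) ≤ (s * ‖u'‖) ^ 2 := by
      rw [mul_pow, hs2]; exact (ow u').2.1
    have bG : ∫ v, ‖gr w (xs d γ ζ) v u‖ ^ 2 ∂(Pn μ (Fin d → ℤ)) ≤ (s * ‖u‖) ^ 2 := by
      rw [mul_pow, hs2]; exact (ow u).1
    have e3 : ∀ t : ℝ, (s * q * t) ^ 2 = C₁ * γ ^ (1 / 2 : ℝ) / y * t ^ 2 := fun t => by
      rw [mul_pow, mul_pow, hs2, hq2]; ring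
    have aR : ∫ v, ‖ContinuousLinearMap.adjoint (gr w (xs d γ ζ) v - dg w γ ζ v) u'‖ ^ 2
        ∂(Pn μ (Fin d → ℤ)) ≤ (s * q * ‖u'‖) ^ 2 := by
      rw [e3]; exact (ow u').2.2.2
    have bR : ∫ v, ‖(gr w (xs d γ ζ) v - dg w γ ζ v) u‖ ^ 2
        ∂(Pn μ (Fin d → ℤ)) ≤ (s * q * ‖u‖) ^ 2 := by
      rw [e3]; exact (ow u).2.2.1
    have k1 := key (Pn μ (Fin d → ℤ)) (fun v => gr w (xs d γ ζ) v) (fun _ => opr Y)
      (fun v => gr w (xs d γ ζ) v - dg w γ ζ v) wG wR ‖Y‖ (s * ‖u'‖) (s * q * ‖u‖)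
      (norm_nonneg _) (fun _ => hYn) (by positivity) (by positivity) u' u aG bR
    have k2 := key (Pn μ (Fin d → ℤ)) (fun v => gr w (xs d γ ζ) v - dg w γ ζ v)
      (fun _ => opr Y) (fun v => gr w (xs d γ ζ) v) wR wG ‖Y‖ (s * q * ‖u'‖) (s * ‖u‖)
      (norm_nonneg _) (fun _ => hYn) (by positivity) (by positivity) u' u aR bG
    have k3 := key (Pn μ (Fin d → ℤ)) (fun v => gr w (xs d γ ζ) v - dg w γ ζ v)
      (fun _ => opr Y) (fun v => gr w (xs d γ ζ) v - dg w γ ζ v) wR wR ‖Y‖ (s * q * ‖u'‖)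
      (s * q * ‖u‖) (norm_nonneg _) (fun _ => hYn) (by positivity) (by positivity) u' u aR bR
    have k4 := key (Pn μ (Fin d → ℤ)) (fun v => gr w (xs d γ ζ) v)
      (fun v => opr Y * gr w (xs d γ ζ + Y) v * opr Y) (fun v => gr w (xs d γ ζ) v) wG wG
      (‖Y‖ * (2 / y) * ‖Y‖) (s * ‖u'‖) (s * ‖u‖) (by positivity) (fun v => by
        refine (norm_mul_le _ _).trans (mul_le_mul ((norm_mul_le _ _).trans
          (mul_le_mul hYn ?_ (norm_nonneg _) (norm_nonneg _))) hYn (norm_nonneg _)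
          (by positivity))
        refine (K1 v).2.2.trans (le_of_eq ?_)
        field_simp) (by positivity) (by positivity) u' u aG bG
    have k0 : ‖∫ v, inner ℂ u' ((dg w γ ζ v * opr Y * dg w γ ζ v) u)
        ∂(Pn μ (Fin d → ℤ))‖
        ≤ C₂ * (γ ^ (1 / 2 : ℝ) / y + w * y ^ (-(15 / 16) : ℝ)) * ‖Y‖ * (‖u'‖ * ‖u‖) := od u u'
    have wY : WB fun _ : (Fin d → ℤ) → ℝ => opr Y := WB.const _
    have i0 := ((wD.mul wY).mul wD).int (Pn μ (Fin d → ℤ)) u' u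
    have i1 := ((wG.mul wY).mul wR).int (Pn μ (Fin d → ℤ)) u' u
    have i2 := ((wR.mul wY).mul wG).int (Pn μ (Fin d → ℤ)) u' u
    have i3 := ((wR.mul wY).mul wR).int (Pn μ (Fin d → ℤ)) u' u
    have i4 := ((wG.mul ((wY.mul wK).mul wY)).mul wG).int (Pn μ (Fin d → ℤ)) u' u
    have e : ∫ v, inner ℂ u' ((gr w (xs d γ ζ + Y) v - gr w (xs d γ ζ) v) u)
        ∂(Pn μ (Fin d → ℤ))
        = -(∫ v, inner ℂ u' ((dg w γ ζ v * opr Y * dg w γ ζ v) u) ∂(Pn μ (Fin d → ℤ)))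
          - (∫ v, inner ℂ u' ((gr w (xs d γ ζ) v * opr Y * (gr w (xs d γ ζ) v - dg w γ ζ v)) u)
              ∂(Pn μ (Fin d → ℤ)))
          - (∫ v, inner ℂ u' (((gr w (xs d γ ζ) v - dg w γ ζ v) * opr Y * gr w (xs d γ ζ) v) u)
              ∂(Pn μ (Fin d → ℤ)))
          + (∫ v, inner ℂ u' (((gr w (xs d γ ζ) v - dg w γ ζ v) * opr Y
              * (gr w (xs d γ ζ) v - dg w γ ζ v)) u) ∂(Pn μ (Fin d → ℤ)))
          + ∫ v, inner ℂ u' ((gr w (xs d γ ζ) v * (opr Y * gr w (xs d γ ζ + Y) v * opr Y)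
              * gr w (xs d γ ζ) v) u) ∂(Pn μ (Fin d → ℤ)) := by
      rw [← int5 _ _ _ _ _ _ i0 i1 i2 i3 i4]
      refine integral_congr_ae (Eventually.of_forall fun v => ?_)
      show inner ℂ u' ((gr w (xs d γ ζ + Y) v - gr w (xs d γ ζ) v) u) = _
      rw [hres v]
      simp only [add_apply, sub_apply,
        neg_apply, inner_add_right, inner_sub_right, inner_neg_right]
    rw [e]
    have t1 : ∀ a b c d e : ℂ, ‖-a - b - c + d + e‖ ≤ ‖a‖ + ‖b‖ + ‖c‖ + ‖d‖ + ‖e‖ := by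
      intro a b c d e
      calc ‖-a - b - c + d + e‖ ≤ ‖-a - b - c + d‖ + ‖e‖ := norm_add_le _ _
        _ ≤ ‖-a - b - c‖ + ‖d‖ + ‖e‖ := by gcongr; exact norm_add_le _ _
        _ ≤ ‖-a - b‖ + ‖c‖ + ‖d‖ + ‖e‖ := by gcongr; exact norm_sub_le _ _
        _ ≤ ‖-a‖ + ‖b‖ + ‖c‖ + ‖d‖ + ‖e‖ := by gcongr; exact norm_sub_le _ _
        _ = _ := by rw [norm_neg]
    refine (t1 _ _ _ _ _).trans ?_
    refine (add_le_add (add_le_add (add_le_add (add_le_add k0 k1) k2) k3) k4).trans ?_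
    have z1 : ‖Y‖ * (s * ‖u'‖ * (s * q * ‖u‖)) = C₁ / y * q * ‖Y‖ * (‖u'‖ * ‖u‖) := by
      rw [← hs2]; ring
    have z2 : ‖Y‖ * (s * q * ‖u'‖ * (s * ‖u‖)) = C₁ / y * q * ‖Y‖ * (‖u'‖ * ‖u‖) := by
      rw [← hs2]; ring
    have z3 : ‖Y‖ * (s * q * ‖u'‖ * (s * q * ‖u‖)) = C₁ / y * q ^ 2 * ‖Y‖ * (‖u'‖ * ‖u‖) := by
      rw [← hs2]; ring
    have z4 : ‖Y‖ * (2 / y) * ‖Y‖ * (s * ‖u'‖ * (s * ‖u‖))
        = 2 * C₁ * (‖Y‖ / y) ^ 2 * (‖u'‖ * ‖u‖) := by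
      have : ‖Y‖ * (2 / y) * ‖Y‖ * (s * ‖u'‖ * (s * ‖u‖))
        = ‖Y‖ * (2 / y) * ‖Y‖ * s ^ 2 * (‖u'‖ * ‖u‖) := by ring
      rw [this, hs2]
      field_simp
    rw [z1, z2, z3, z4, hq2]
    exact num C₁ C₂ y q _ ‖Y‖ _ _ (by linarith) (by linarith) him hqq hyr (norm_nonneg _)
      (by positivity)
  -- the operator
  have hT : ‖opr (N' - N)‖ ≤ Bd := by
    refine ContinuousLinearMap.opNorm_le_bound _ hBd0 fun u => ?_
    refine op_bound _ u Bd hBd0 fun F => ?_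
    have hNN : opr N' = opr (N' - N) + opr N := by rw [← hadd, sub_add_cancel]
    have hTx : ∀ x, opr (N' - N) u x
        = ∫ v, (gr w (xs d γ ζ + Y) v - gr w (xs d γ ζ) v) u x
          ∂(Pn μ (Fin d → ℤ)) := fun x => by
      have j1 : Integrable (fun v => gr w (xs d γ ζ + Y) v u x) (Pn μ (Fin d → ℤ)) := by
        have := wK.int (Pn μ (Fin d → ℤ)) (dl x) u
        simpa only [inner_dl] using this
      have j2 : Integrable (fun v => gr w (xs d γ ζ) v u x) (Pn μ (Fin d → ℤ)) := by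
        have := wG.int (Pn μ (Fin d → ℤ)) (dl x) u
        simpa only [inner_dl] using this
      have e1 : ∫ v, (gr w (xs d γ ζ + Y) v - gr w (xs d γ ζ) v) u x
          ∂(Pn μ (Fin d → ℤ))
          = (∫ v, gr w (xs d γ ζ + Y) v u x ∂(Pn μ (Fin d → ℤ)))
            - ∫ v, gr w (xs d γ ζ) v u x ∂(Pn μ (Fin d → ℤ)) := integral_sub j1 j2
      rw [e1, hN, hN', hNN]
      have : (opr (N' - N) + opr N) u x = opr (N' - N) u x + opr N u x := rfl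
      rw [this]
      ring
    have hform := form (∑ x ∈ F, lp.single 2 x (opr (N' - N) u x)) u
    have e5 : inner ℂ (∑ x ∈ F, lp.single 2 x (opr (N' - N) u x)) (opr (N' - N) u)
        = ∫ v, inner ℂ (∑ x ∈ F, lp.single 2 x (opr (N' - N) u x))
          ((gr w (xs d γ ζ + Y) v - gr w (xs d γ ζ) v) u) ∂(Pn μ (Fin d → ℤ)) := by
      simp only [sum_inner, lp.inner_single_left]
      rw [integral_finsetSum]
      · refine Finset.sum_congr rfl fun x _ => ?_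
        conv_lhs => rw [hTx x]
        rw [hTx x]
        have : ∀ (c : ℂ) (f : ((Fin d → ℤ) → ℝ) → ℂ), inner ℂ c (∫ v, f v
            ∂(Pn μ (Fin d → ℤ))) = ∫ v, inner ℂ c (f v) ∂(Pn μ (Fin d → ℤ)) := by
          intro c f
          simp only [RCLike.inner_apply]
          rw [integral_mul_const]
        exact this _ _
      · intro x _
        have h6 := (wK.sub wG).int (Pn μ (Fin d → ℤ))
          (lp.single 2 x (opr (N' - N) u x)) u
        simpa only [lp.inner_single_left] using h6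
    rw [e5]
    exact hform
  calc ‖N' k - N k‖ = ‖(N' - N) k‖ := by rw [ContinuousMap.sub_apply]
    _ ≤ ‖N' - N‖ := (N' - N).norm_coe_le_norm k
    _ = ‖opr (N' - N)‖ := ((hsymb d).2.1 _).symm
    _ ≤ Bd := hT

end

end Pool.Agent.N3.SN.PTU
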